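import Mathlib

/-!
Key lemma: starts of Hamiltonian paths ending at a fixed vertex.
Paths are lists of vertices which are chains for a symmetric relation.
-/

set_option autoImplicit false

namespace Pool.Agent.Lib.MP_05e181_co

open List

variable {V : Type*}

/-- `F` is a rearrangement of `F0` which is an `R`-chain ending at `z`. -/
def Ham (R : V → V → Prop) (F0 : List V) (z : V) (F : List V) : Prop :=
  F ~ F0 ∧ IsChain R F ∧ F.getLast? = some z

/-- `a` is the first vertex of such a rearrangement. -/
def Start (R : V → V → Prop) (F0 : List V) (z : V) (a : V) : Prop :=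
  ∃ l, Ham R F0 z (a :: l)

theorem chain_rev {R : V → V → Prop} (hs : ∀ a b, R a b → R b a) {l : List V}
    (h : IsChain R l) : IsChain R l.reverse := by
  rw [isChain_reverse]
  exact h.imp (fun a b hab => hs a b hab)

theorem eq_append_of_getLast? {l : List V} {z : V} (h : l.getLast? = some z) :
    ∃ l', l = l' ++ [z] := by
  rw [List.getLast?_eq_some_iff] at h
  exact h

theorem getLast?_app (l : List V) (y : V) (B : List V) :
    (l ++ y :: B).getLast? = (y :: B).getLast? := by
  rw [List.getLast?_append, List.getLast?_eq_some_getLast (l := y :: B) (by simp)]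
  rfl

/-- A start for the initial piece is a start for the whole path. -/
theorem ham_extend {R : V → V → Prop} {F0 I B Q : List V} {z q : V}
    (h : Ham R F0 z (I ++ q :: B)) (hQ : Q ~ I) (hc : IsChain R (Q ++ [q])) :
    Ham R F0 z (Q ++ q :: B) := by
  obtain ⟨hp, hch, hl⟩ := h
  refine ⟨(hQ.append_right _).trans hp, ?_, ?_⟩
  · rw [isChain_split] at hch ⊢
    exact ⟨hc, hch.2⟩
  · simpa [List.getLast?_append] using hl

theorem start_split {R : V → V → Prop} {I : List V} {q a : V}
    (hI : I ≠ []) (h : Start R (I ++ [q]) q a) :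
    ∃ l, (a :: l) ~ I ∧ IsChain R ((a :: l) ++ [q]) := by
  obtain ⟨l, hp, hc, hl⟩ := h
  obtain ⟨l', hl'⟩ := eq_append_of_getLast? hl
  rw [hl'] at hp hc
  have hp' : l' ~ I := (List.perm_append_right_iff _).1 hp
  cases l' with
  | nil => exact absurd hp'.symm.eq_nil hI
  | cons b t =>
    simp only [cons_append, cons.injEq] at hl'
    obtain ⟨rfl, -⟩ := hl'
    exact ⟨t, hp', hc⟩

/-- Rotation. -/
theorem rotate {R : V → V → Prop} (hs : ∀ a b, R a b → R b a) {F0 A B : List V} {z b y p : V}
    (h : Ham R F0 z ((b :: A) ++ y :: B)) (hby : R b y) (hp : (b :: A).getLast? = some p) :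
    Start R F0 z p := by
  obtain ⟨hperm, hch, hl⟩ := h
  obtain ⟨A', hA'⟩ := eq_append_of_getLast? hp
  refine ⟨A'.reverse ++ y :: B, ?_, ?_, ?_⟩
  · have : p :: (A'.reverse ++ y :: B) = (b :: A).reverse ++ y :: B := by
      rw [hA']; simp
    rw [this]
    exact ((List.reverse_perm _).append_right _).trans hperm
  · have : p :: (A'.reverse ++ y :: B) = (b :: A).reverse ++ y :: B := by
      rw [hA']; simp
    rw [this]
    rw [isChain_append] at hch ⊢
    refine ⟨chain_rev hs hch.1, hch.2.1, ?_⟩
    intro u hu v hv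
    simp at hu hv
    subst hu hv
    exact hby
  · have : p :: (A'.reverse ++ y :: B) = (b :: A).reverse ++ y :: B := by
      rw [hA']; simp
    rw [this]
    rw [getLast?_app] at hl ⊢
    exact hl

/-- Insertion of an initial segment further along the path. -/
theorem insertion {R : V → V → Prop} {F0 Q1 Q2 A M B : List V} {z q a b y : V}
    (h : Ham R F0 z ((Q1 ++ b :: Q2) ++ q :: (A ++ M ++ y :: B)))
    (ha : (Q1 ++ [b]).head? = some a)
    (hc : IsChain R ((q :: A) ++ M.reverse ++ [a])) (hby : R b y) :
    Ham R F0 z (Q2 ++ q :: (A ++ M.reverse ++ (Q1 ++ [b]) ++ y :: B)) := by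
  obtain ⟨hperm, hch, hl⟩ := h
  refine ⟨List.Perm.trans ?_ hperm, ?_, ?_⟩
  · classical
    rw [List.perm_iff_count]
    intro x
    simp only [List.count_append, List.count_cons, List.count_reverse, List.count_nil]
    omega
  · have e1 : (Q1 ++ b :: Q2) ++ q :: (A ++ M ++ y :: B)
        = (Q1 ++ [b]) ++ (Q2 ++ q :: (A ++ M ++ y :: B)) := by simp
    rw [e1, isChain_append] at hch
    obtain ⟨h1, h2, -⟩ := hch
    rw [isChain_split] at h2
    obtain ⟨h2, h3⟩ := h2
    have e2 : q :: (A ++ M ++ y :: B) = (q :: (A ++ M)) ++ (y :: B) := by simp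
    rw [e2, isChain_append] at h3
    obtain ⟨-, h4, -⟩ := h3
    rw [isChain_split]
    refine ⟨h2, ?_⟩
    obtain ⟨T, hT⟩ : ∃ T, Q1 ++ [b] = a :: T := by
      cases hq : Q1 ++ [b] with
      | nil => simp at hq
      | cons c T => rw [hq] at ha; simp at ha; subst ha; exact ⟨T, rfl⟩
    have e3 : q :: (A ++ M.reverse ++ (Q1 ++ [b]) ++ y :: B)
        = ((q :: A) ++ M.reverse) ++ a :: (T ++ y :: B) := by rw [hT]; simp
    rw [e3, isChain_split]
    refine ⟨hc, ?_⟩
    have e4 : a :: (T ++ y :: B) = (Q1 ++ [b]) ++ y :: B := by rw [hT]; simp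
    rw [e4, isChain_append]
    refine ⟨h1, h4, ?_⟩
    intro u hu v hv
    simp at hu hv
    subst hu hv
    exact hby
  · have e1 : (Q1 ++ b :: Q2) ++ q :: (A ++ M ++ y :: B)
        = ((Q1 ++ b :: Q2) ++ q :: (A ++ M)) ++ y :: B := by simp
    have e2 : Q2 ++ q :: (A ++ M.reverse ++ (Q1 ++ [b]) ++ y :: B)
        = (Q2 ++ q :: (A ++ M.reverse ++ (Q1 ++ [b]))) ++ y :: B := by simp
    rw [e1] at hl
    rw [e2]
    rw [getLast?_app] at hl ⊢
    exact hl

open Classical in
theorem key {R : V → V → Prop} (hs : ∀ a b, R a b → R b a) :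
    ∀ (n : ℕ) (F0 : List V) (z : V), F0.length = n → 2 ≤ n → F0.Nodup → Ham R F0 z F0 →
      ∃ X S : Finset V, X.Nonempty ∧ (∀ a ∈ X, Start R F0 z a) ∧ (∀ a ∈ S, Start R F0 z a) ∧
        (∀ a ∈ X, a ≠ z) ∧ (∀ a ∈ S, a ≠ z) ∧
        (∀ a ∈ S, ∀ b ∈ S, a ≠ b → ¬ R a b) ∧
        (F0.toFinset.filter (fun w => w ∉ X ∧ ∃ a ∈ X, R a w)).card ≤ S.card := by
  intro n
  induction n using Nat.strong_induction_on with
  | _ n ih =>
  intro F0 z hlen hn hnd hF0
  -- `z` is not a start
  have hz : ∀ a, Start R F0 z a → a ≠ z := by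
    rintro a ⟨l, hp, -, hl⟩ rfl
    obtain ⟨l', hl'⟩ := eq_append_of_getLast? hl
    have hnd' : (a :: l).Nodup := hp.nodup_iff.2 hnd
    have hlen' : (a :: l).length = n := hp.length_eq.trans hlen
    cases l' with
    | nil =>
      rw [hl'] at hlen'
      simp at hlen'
      omega
    | cons c t =>
      simp only [cons_append, cons.injEq] at hl'
      obtain ⟨-, rfl⟩ := hl'
      simp at hnd'
  by_cases hall : ∀ a ∈ F0, a ≠ z → Start R F0 z a
  · obtain ⟨v, t, rfl⟩ : ∃ v t, F0 = v :: t := by
      cases F0 with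
      | nil => simp at hlen; omega
      | cons v t => exact ⟨v, t, rfl⟩
    have hv : Start R (v :: t) z v := ⟨t, hF0⟩
    refine ⟨(v :: t).toFinset.erase z, {v}, ⟨v, ?_⟩, ?_, ?_, ?_, ?_, ?_, ?_⟩
    · simp [hz v hv]
    · intro a ha
      rw [Finset.mem_erase, List.mem_toFinset] at ha
      exact hall a ha.2 ha.1
    · intro a ha
      rw [Finset.mem_singleton] at ha
      exact ha ▸ hv
    · intro a ha
      exact (Finset.mem_erase.1 ha).1
    · intro a ha
      rw [Finset.mem_singleton] at ha
      exact ha ▸ hz v hv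
    · intro a ha b hb hab
      rw [Finset.mem_singleton] at ha hb
      exact absurd (ha.trans hb.symm) hab
    · have : ((v :: t).toFinset.filter (fun w => w ∉ (v :: t).toFinset.erase z ∧
          ∃ a ∈ (v :: t).toFinset.erase z, R a w)) ⊆ {z} := by
        intro w hw
        rw [Finset.mem_filter] at hw
        obtain ⟨h1, h2, -⟩ := hw
        rw [Finset.mem_singleton]
        by_contra hne
        exact h2 (Finset.mem_erase.2 ⟨hne, h1⟩)
      simpa using Finset.card_le_card this
  · push Not at hall
    obtain ⟨a0, ha0, ha0z, ha0s⟩ := hall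
    have hex : ∃ m, ∃ I q B, I.length = m ∧ Ham R F0 z (I ++ q :: B) ∧ q ≠ z ∧
        ¬ Start R F0 z q := by
      obtain ⟨I, B, hIB⟩ := List.append_of_mem ha0
      exact ⟨I.length, I, a0, B, rfl, hIB ▸ hF0, ha0z, ha0s⟩
    obtain ⟨I, q, B, hIm, hH, hqz, hqs⟩ := Nat.find_spec hex
    have hmin : ∀ I' B', Ham R F0 z (I' ++ q :: B') → I.length ≤ I'.length := by
      intro I' B' h'
      rw [hIm]
      exact Nat.find_min' hex ⟨I', q, B', rfl, h', hqz, hqs⟩
    have hI : I ≠ [] := by
      rintro rfl
      exact hqs ⟨B, hH⟩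
    have hB : B ≠ [] := by
      rintro rfl
      have := hH.2.2
      simp at this
      exact hqz this
    have hndF : (I ++ q :: B).Nodup := hH.1.nodup_iff.2 hnd
    have hlenF : (I ++ q :: B).length = n := hH.1.length_eq.trans hlen
    have hndI : (I ++ [q]).Nodup := by
      have : I ++ q :: B = (I ++ [q]) ++ B := by simp
      rw [this] at hndF
      exact hndF.of_append_left
    have hchI : IsChain R (I ++ [q]) := (isChain_split.1 hH.2.1).1
    have hIpos : 0 < I.length := List.length_pos_of_ne_nil hI
    have hBpos : 0 < B.length := List.length_pos_of_ne_nil hB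
    obtain ⟨X, S1, hXne, hX, hS1, hXq, hS1q, hind, hcard⟩ :=
      ih (I ++ [q]).length (by simp at hlenF ⊢; omega) (I ++ [q]) q rfl (by simp; omega) hndI
        ⟨List.Perm.refl _, hchI, by simp⟩
    -- starts of the initial piece
    have hY : ∀ a, Start R (I ++ [q]) q a → ∃ l, (a :: l) ~ I ∧ Ham R F0 z ((a :: l) ++ q :: B) := by
      intro a ha
      obtain ⟨l, hl, hc⟩ := start_split hI ha
      exact ⟨l, hl, ham_extend hH hl hc⟩
    have hYI : ∀ a, Start R (I ++ [q]) q a → a ∈ I := by
      intro a ha
      obtain ⟨l, hl, -⟩ := hY a ha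
      exact hl.subset (by simp)
    have hYs : ∀ a, Start R (I ++ [q]) q a → Start R F0 z a := by
      intro a ha
      obtain ⟨l, -, h⟩ := hY a ha
      exact ⟨l ++ q :: B, h⟩
    -- the insertion argument
    have hins : ∀ (a b : V) (A M : List V) (y : V) (B' : List V), Start R (I ++ [q]) q a → b ∈ I → B = A ++ M ++ y :: B' →
        IsChain R ((q :: A) ++ M.reverse ++ [a]) → R b y → False := by
      intro a b A M y B' ha hb hBe hc hby
      obtain ⟨l, hl, h⟩ := hY a ha
      obtain ⟨Q1, Q2, hQ⟩ := List.append_of_mem (hl.symm.subset hb)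
      rw [hQ, hBe] at h
      have hh : (Q1 ++ [b]).head? = some a := by
        cases Q1 with
        | nil => simp at hQ ⊢; exact hQ.1.symm
        | cons c t => simp at hQ ⊢; exact hQ.1.symm
      have h2 := hmin _ _ (insertion h hh hc hby)
      have h3 := hl.length_eq
      rw [hQ] at h3
      simp at h3
      omega
    have hchB : IsChain R (q :: B) := (isChain_split.1 hH.2.1).2
    -- predecessors
    have hdec : ∀ y ∈ B, ∃ p A B', B = A ++ y :: B' ∧ (q :: A).getLast? = some p := by
      intro y hy
      obtain ⟨A, B', h⟩ := List.append_of_mem hy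
      exact ⟨(q :: A).getLast (by simp), A, B', h, List.getLast?_eq_some_getLast _⟩
    choose! pr hpr using hdec
    set O : Finset V := B.toFinset.filter (fun y => ∃ b ∈ X, R b y) with hO
    have hOmem : ∀ y ∈ O, y ∈ B ∧ ∃ b ∈ X, R b y := by
      intro y hy
      rw [hO, Finset.mem_filter, List.mem_toFinset] at hy
      exact hy
    have hprA : ∀ A : List V, ∀ y B', B = A ++ y :: B' → IsChain R (q :: A) := by
      intro A y B' h
      have : q :: B = (q :: A) ++ y :: B' := by rw [h]; simp
      rw [this, isChain_append] at hchB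
      exact hchB.1
    -- (a) predecessors are starts
    have ha_ : ∀ y ∈ O, Start R F0 z (pr y) := by
      intro y hy
      obtain ⟨hyB, b, hbX, hby⟩ := hOmem y hy
      obtain ⟨A, B', hBe, hlast⟩ := hpr y hyB
      obtain ⟨l, -, h⟩ := hY b (hX b hbX)
      have e : (b :: l) ++ q :: B = (b :: (l ++ q :: A)) ++ y :: B' := by rw [hBe]; simp
      rw [e] at h
      refine rotate hs h hby ?_
      have : b :: (l ++ q :: A) = (b :: l) ++ (q :: A) := by simp
      rw [this, List.getLast?_append, hlast]
      rfl
    -- (b) predecessors are not adjacent to starts of the initial piece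
    have hb_ : ∀ y ∈ O, ∀ a, Start R (I ++ [q]) q a → ¬ R (pr y) a := by
      intro y hy a ha hR
      obtain ⟨hyB, b, hbX, hby⟩ := hOmem y hy
      obtain ⟨A, B', hBe, hlast⟩ := hpr y hyB
      refine hins a b A [] y B' ha (hYI b (hX b hbX)) (by simpa using hBe) ?_ hby
      simp only [reverse_nil, append_nil]
      rw [isChain_append]
      refine ⟨hprA A y B' hBe, by simp, ?_⟩
      intro u hu v hv
      rw [hlast] at hu
      simp at hu hv
      subst hu hv
      exact hR
    have hndB : (q :: B).Nodup := hndF.of_append_right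
    -- (c) predecessors are distinct and pairwise non adjacent
    have hc_aux : ∀ x ∈ O, ∀ y ∈ O, ∀ A M B', B = A ++ x :: M ++ y :: B' →
        (q :: A).getLast? = some (pr x) → (q :: (A ++ x :: M)).getLast? = some (pr y) →
        pr x ≠ pr y ∧ ¬ R (pr x) (pr y) := by
      intro x hx y hy A M B' hBe hlx hly
      obtain ⟨-, a, haX, hax⟩ := hOmem x hx
      obtain ⟨-, b, hbX, hby⟩ := hOmem y hy
      have hly' : (x :: M).getLast? = some (pr y) := by
        have : q :: (A ++ x :: M) = (q :: A) ++ (x :: M) := by simp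
        rw [this, List.getLast?_append] at hly
        obtain ⟨u, hu⟩ : ∃ u, (x :: M).getLast? = some u :=
          ⟨_, List.getLast?_eq_some_getLast (by simp)⟩
        rw [hu] at hly ⊢
        simpa using hly
      constructor
      · intro heq
        have h1 : pr x ∈ q :: A := List.mem_of_getLast? hlx
        have h2 : pr x ∈ x :: M := heq ▸ List.mem_of_getLast? hly'
        have : q :: B = (q :: A) ++ ((x :: M) ++ y :: B') := by rw [hBe]; simp
        rw [this] at hndB
        exact (List.disjoint_of_nodup_append hndB) h1 (List.mem_append_left _ h2)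
      · intro hR
        refine hins a b A (x :: M) y B' (hX a haX) (hYI b (hX b hbX)) (by simpa using hBe) ?_ hby
        have hch2 : IsChain R (x :: M) := by
          have : q :: B = (q :: A) ++ ((x :: M) ++ y :: B') := by rw [hBe]; simp
          rw [this, isChain_append, isChain_append] at hchB
          exact hchB.2.1.1
        rw [isChain_append, isChain_append]
        refine ⟨⟨hprA A x (M ++ y :: B') (by simpa using hBe), chain_rev hs hch2, ?_⟩, by simp, ?_⟩
        · intro u hu v hv
          rw [hlx] at hu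
          rw [List.head?_reverse, hly'] at hv
          simp at hu hv
          subst hu hv
          exact hR
        · intro u hu v hv
          have e : q :: A ++ (x :: M).reverse = (q :: A ++ M.reverse) ++ x :: [] := by simp
          rw [e, getLast?_app] at hu
          simp at hu hv
          subst hu hv
          exact hs _ _ hax
    have hc_ : ∀ x ∈ O, ∀ y ∈ O, x ≠ y → pr x ≠ pr y ∧ ¬ R (pr x) (pr y) := by
      intro x hx y hy hxy
      obtain ⟨A1, B1, hB1, hl1⟩ := hpr x (hOmem x hx).1
      obtain ⟨A2, B2, hB2, hl2⟩ := hpr y (hOmem y hy).1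
      have heq : A1 ++ x :: B1 = A2 ++ y :: B2 := hB1.symm.trans hB2
      rcases List.append_eq_append_iff.1 heq with ⟨C, hC1, hC2⟩ | ⟨C, hC1, hC2⟩
      · cases C with
        | nil => simp at hC2; exact absurd hC2.1 hxy
        | cons c M =>
          simp only [cons_append, cons.injEq] at hC2
          obtain ⟨rfl, -⟩ := hC2
          exact hc_aux x hx y hy A1 M B2 (by rw [hB2, hC1]) hl1 (hC1 ▸ hl2)
      · cases C with
        | nil => simp at hC2; exact absurd hC2.1.symm hxy
        | cons c M =>
          simp only [cons_append, cons.injEq] at hC2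
          obtain ⟨rfl, -⟩ := hC2
          obtain ⟨h1, h2⟩ := hc_aux y hy x hx A2 M B1 (by rw [hB1, hC1]) hl2 (hC1 ▸ hl1)
          exact ⟨h1.symm, fun h => h2 (hs _ _ h)⟩
    have hprB : ∀ y ∈ O, pr y ∈ q :: B := by
      intro y hy
      obtain ⟨A, B', hBe, hlast⟩ := hpr y (hOmem y hy).1
      have h1 : pr y ∈ q :: A := List.mem_of_getLast? hlast
      have : q :: B = (q :: A) ++ y :: B' := by rw [hBe]; simp
      rw [this]
      exact List.mem_append_left _ h1
    have hdisj : Disjoint S1 (O.image pr) := by
      rw [Finset.disjoint_left]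
      intro a ha ha'
      obtain ⟨y, hy, rfl⟩ := Finset.mem_image.1 ha'
      exact (List.disjoint_of_nodup_append hndF) (hYI _ (hS1 _ ha)) (hprB y hy)
    have hSs : ∀ a ∈ S1 ∪ O.image pr, Start R F0 z a := by
      intro a ha
      rcases Finset.mem_union.1 ha with h | h
      · exact hYs a (hS1 a h)
      · obtain ⟨y, hy, rfl⟩ := Finset.mem_image.1 h
        exact ha_ y hy
    refine ⟨X, S1 ∪ O.image pr, hXne, fun a ha => hYs a (hX a ha), hSs,
      fun a ha => hz a (hYs a (hX a ha)), fun a ha => hz a (hSs a ha), ?_, ?_⟩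
    · intro a ha b hb hab
      rcases Finset.mem_union.1 ha with h | h <;> rcases Finset.mem_union.1 hb with h' | h'
      · exact hind a h b h' hab
      · obtain ⟨y, hy, rfl⟩ := Finset.mem_image.1 h'
        exact fun hR => hb_ y hy a (hS1 a h) (hs _ _ hR)
      · obtain ⟨y, hy, rfl⟩ := Finset.mem_image.1 h
        exact hb_ y hy b (hS1 b h')
      · obtain ⟨x, hx, rfl⟩ := Finset.mem_image.1 h
        obtain ⟨y, hy, rfl⟩ := Finset.mem_image.1 h'
        exact (hc_ x hx y hy (fun e => hab (e ▸ rfl))).2
    · rw [Finset.card_union_of_disjoint hdisj, Finset.card_image_of_injOn]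
      · have hsub : F0.toFinset.filter (fun w => w ∉ X ∧ ∃ a ∈ X, R a w) ⊆
            (I ++ [q]).toFinset.filter (fun w => w ∉ X ∧ ∃ a ∈ X, R a w) ∪ O := by
          intro w hw
          rw [Finset.mem_filter, List.mem_toFinset] at hw
          obtain ⟨h1, h2, h3⟩ := hw
          have h1' : w ∈ (I ++ [q]) ++ B := by
            have := hH.1.symm.subset h1
            simpa using this
          rcases List.mem_append.1 h1' with h | h
          · exact Finset.mem_union_left _
              (Finset.mem_filter.2 ⟨List.mem_toFinset.2 h, h2, h3⟩)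
          · exact Finset.mem_union_right _
              (Finset.mem_filter.2 ⟨List.mem_toFinset.2 h, h3⟩)
        exact (Finset.card_le_card hsub).trans
          ((Finset.card_union_le _ _).trans (Nat.add_le_add_right hcard _))
      · intro x hx y hy hxy
        by_contra hne
        exact (hc_ x hx y hy hne).1 hxy

end Pool.Agent.Lib.MP_05e181_co
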