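import Mathlib
import Pool.Agent.Lib.MP_05e181_co.Key

/-!
The head of a longest path: a cycle all of whose rotation ends have their neighbours on it.
-/

set_option autoImplicit false

namespace Pool.Agent.Lib.MP_05e181_co

open List

/-- In a finite graph with an edge there is a path `H` from `a` to `r`, with `a` adjacent to `r`,
such that every first vertex of a rearrangement of `H` ending at `r` has all neighbours on `H`. -/
theorem exists_head {V : Type} [Fintype V] (G : SimpleGraph V) {x y : V} (hxy : G.Adj x y) :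
    ∃ (a r : V) (l : List V), (a :: l).Nodup ∧ 1 ≤ l.length ∧ Ham G.Adj (a :: l) r (a :: l) ∧
      G.Adj a r ∧ ∀ b, Start G.Adj (a :: l) r b → ∀ w, G.Adj b w → w ∈ a :: l := by
  classical
  let P : ℕ → Prop := fun n => ∃ l : List V, l.length = n ∧ l.Nodup ∧ l.IsChain G.Adj
  have hP0 : P 0 := ⟨[], rfl, List.nodup_nil, List.IsChain.nil⟩
  obtain ⟨F, hFl, hFnd, hFc⟩ : P (Nat.findGreatest P (Fintype.card V)) :=
    Nat.findGreatest_spec (Nat.zero_le _) hP0
  have hmax : ∀ l : List V, l.Nodup → l.IsChain G.Adj → l.length ≤ F.length := by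
    intro l h1 h2
    rw [hFl]
    exact Nat.le_findGreatest (h1.length_le_card) ⟨l, rfl, h1, h2⟩
  have hF2 : 2 ≤ F.length := hmax [x, y] (by simpa using hxy.ne) (by simpa using hxy)
  let Q : ℕ → Prop := fun m => ∃ (a r : V) (l T : List V), l.length = m ∧
    ((a :: l) ++ T).Nodup ∧ ((a :: l) ++ T).IsChain G.Adj ∧
    ((a :: l) ++ T).length = F.length ∧ (a :: l).getLast? = some r ∧ G.Adj a r
  have hQ1 : Q 1 := by
    obtain ⟨a, b, T, hT⟩ : ∃ a b T, F = a :: b :: T := by
      match F, hF2 with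
      | a :: b :: T, _ => exact ⟨a, b, T, rfl⟩
    rw [hT] at hFc hFnd
    exact ⟨a, b, [b], T, rfl, hFnd, hFc, by rw [hT]; rfl, rfl, (List.isChain_cons_cons.1 hFc).1⟩
  have hc1 : 1 ≤ Fintype.card V := Fintype.card_pos_iff.2 ⟨x⟩
  obtain ⟨a, r, l, T, hl, hnd, hch, hlen, hlast, har⟩ :
      Q (Nat.findGreatest Q (Fintype.card V)) := Nat.findGreatest_spec hc1 hQ1
  have hl1 : 1 ≤ l.length := by rw [hl]; exact Nat.le_findGreatest hc1 hQ1
  have hch' := List.isChain_append.1 hch
  refine ⟨a, r, l, (List.nodup_append.1 hnd).1, hl1, ⟨List.Perm.refl _, hch'.1, hlast⟩, har, ?_⟩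
  rintro b ⟨l', hp, hc, hl'⟩ w hbw
  have hperm : ((b :: l') ++ T) ~ ((a :: l) ++ T) := hp.append_right _
  have hnd' : ((b :: l') ++ T).Nodup := hperm.nodup_iff.2 hnd
  have hc' : ((b :: l') ++ T).IsChain G.Adj := by
    refine List.isChain_append.2 ⟨hc, hch'.2.1, ?_⟩
    intro u hu v hv
    refine hch'.2.2 u ?_ v hv
    rw [hlast, ← hl']
    exact hu
  have hlen' : ((b :: l') ++ T).length = F.length := hperm.length_eq.trans hlen
  have hw : w ∈ (b :: l') ++ T := by
    by_contra hw
    have h1 : (w :: ((b :: l') ++ T)).Nodup := List.nodup_cons.2 ⟨hw, hnd'⟩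
    have h2 := hmax _ h1 (List.isChain_cons_cons.2 ⟨hbw.symm, hc'⟩)
    rw [List.length_cons, hlen'] at h2
    omega
  rcases List.mem_append.1 hw with h | h
  · exact hp.subset h
  · exfalso
    obtain ⟨A, B, rfl⟩ := List.append_of_mem h
    have e : (b :: l') ++ (A ++ w :: B) = (b :: (l' ++ A ++ [w])) ++ B := by simp
    have hQ : Q (l' ++ A ++ [w]).length := by
      refine ⟨b, w, l' ++ A ++ [w], B, rfl, e ▸ hnd', e ▸ hc', e ▸ hlen', ?_, hbw⟩
      have : b :: (l' ++ A ++ [w]) = (b :: (l' ++ A)) ++ [w] := by simp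
      rw [this, List.getLast?_concat]
    have hle : (l' ++ A ++ [w]).length ≤ Fintype.card V := by
      have h1 := hnd'.length_le_card
      rw [e] at h1
      simp only [List.length_append, List.length_cons] at h1 ⊢
      omega
    have h2 := Nat.le_findGreatest hle hQ
    have h3 := hp.length_eq
    rw [← hl] at h2
    simp only [List.length_append, List.length_cons, List.length_nil] at h2 h3
    omega

/-- A path with at least three vertices whose ends are adjacent closes up to a cycle. -/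
theorem exists_cycle {V : Type} (G : SimpleGraph V) {a r : V} {l : List V} (hnd : (a :: l).Nodup)
    (h2 : 2 ≤ l.length) (hH : Ham G.Adj (a :: l) r (a :: l)) (har : G.Adj a r) :
    ∃ c : G.Walk r r, c.IsCycle ∧ c.support.tail = a :: l := by
  obtain ⟨-, hc, hl⟩ := hH
  have hne : a :: l ≠ [] := List.cons_ne_nil _ _
  have hr : (a :: l).getLast hne = r := by
    rw [List.getLast?_eq_some_getLast hne] at hl
    exact Option.some.inj hl
  let p : G.Walk a r := (SimpleGraph.Walk.ofSupport (a :: l) hne hc).copy rfl hr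
  have hs : p.support = a :: l := by
    simp only [p, SimpleGraph.Walk.support_copy, SimpleGraph.Walk.support_ofSupport]
  have hp : p.IsPath := by rw [SimpleGraph.Walk.isPath_def, hs]; exact hnd
  have hlen : p.length = l.length := by
    have := p.length_support
    rw [hs, List.length_cons] at this
    omega
  refine ⟨SimpleGraph.Walk.cons har.symm p, ?_, by simp [hs]⟩
  rw [SimpleGraph.Walk.cons_isCycle_iff]
  refine ⟨hp, fun h => ?_⟩
  have h1 : r = p.snd := hp.eq_snd_of_mem_edges (Sym2.eq_swap ▸ h)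
  have h3 := (hp.getVert_eq_end_iff (i := 1) (by omega)).1 h1.symm
  omega

/-- If `a ∈ X`, `w ∉ X` are joined outside `C`, some edge leaves `X` outside `C`. -/
theorem exit_edge {V : Type} {G : SimpleGraph V} {C : Set V} (X : Set V) :
    ∀ {a w : C} (_ : (G.induce C).Walk a w), (a : V) ∈ X → (w : V) ∉ X →
      ∃ x ∈ X, ∃ y ∈ C, y ∉ X ∧ G.Adj x y := by
  intro a w p
  induction p with
  | nil => intro h1 h2; exact absurd h1 h2
  | @cons u v w h p ih =>
    intro h1 h2
    by_cases hv : (v : V) ∈ X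
    · exact ih hv h2
    · exact ⟨u, h1, v, v.2, hv, h⟩

/-- The cycle form. -/
theorem cycle_form {V : Type} [Fintype V] [hd : DecidableEq V] (G : SimpleGraph V) (k : ℕ) (hk : 2 ≤ k)
    (hcard : k < Fintype.card V)
    (hconn : ∀ X : Finset V, X.card < k → (G.induce {v | v ∉ X}).Connected)
    (hnh : ¬ G.IsHamiltonian) :
    ∃ S : Finset V, S.card = k ∧ G.IsIndepSet (S : Set V) ∧
      ∃ (u : V) (c : G.Walk u u), c.IsCycle ∧
        ∀ s ∈ S, s ∈ c.support ∧ ∀ w : V, G.Adj s w → w ∈ c.support := by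
  obtain rfl : hd = fun a b => Classical.propDecidable (a = b) := Subsingleton.elim _ _
  classical
  have hs : ∀ a b, G.Adj a b → G.Adj b a := fun a b h => h.symm
  have hexit : ∀ (X : Set V) (C : Finset V), C.card < k → ∀ a w, a ∈ X → a ∉ C → w ∉ X → w ∉ C →
      ∃ x ∈ X, ∃ y, y ∉ C ∧ y ∉ X ∧ G.Adj x y := by
    intro X C hC a w ha haC hw hwC
    obtain ⟨p⟩ := (hconn C hC).preconnected ⟨a, haC⟩ ⟨w, hwC⟩
    obtain ⟨x, hx, y, hy, hyX, hxy⟩ := exit_edge X p ha hw
    exact ⟨x, hx, y, hy, hyX, hxy⟩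
  obtain ⟨x0, y0, hxy0⟩ : ∃ x y, G.Adj x y := by
    obtain ⟨a, b, hab⟩ := Fintype.exists_pair_of_one_lt_card (α := V) (by omega)
    obtain ⟨x, -, y, -, -, hxy⟩ := hexit {a} ∅ (by simp; omega) a b (by simp) (by simp)
      (by simpa using hab.symm) (by simp)
    exact ⟨x, y, hxy⟩
  obtain ⟨a, r, l, hnd, hl1, hH, har, hsat⟩ := exists_head G hxy0
  have hmem : ∀ b, Start G.Adj (a :: l) r b → b ∈ a :: l := by
    rintro b ⟨l', hp, -, -⟩
    exact hp.subset (by simp)
  have hr : r ∈ a :: l := hsat a ⟨l, hH⟩ r har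
  -- the head has at least three vertices
  have hl2 : 2 ≤ l.length := by
    obtain ⟨w, hw⟩ : ∃ w, w ∉ ({a, r} : Finset V) := by
      by_contra hcon
      push Not at hcon
      have h1 : (Finset.univ : Finset V) ⊆ {a, r} := fun w _ => hcon w
      have h2 := Finset.card_le_card h1
      have h3 : ({a, r} : Finset V).card ≤ 2 := Finset.card_le_two
      rw [Finset.card_univ] at h2
      omega
    simp only [Finset.mem_insert, Finset.mem_singleton, not_or] at hw
    obtain ⟨x, hx, y, hyC, -, hxy⟩ := hexit {a} {r} (by simp; omega) a w (by simp)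
      (by simpa using har.ne) (by simpa using hw.1) (by simpa using hw.2)
    have hxa : x = a := hx
    subst hxa
    have hy : y ∈ x :: l := hsat x ⟨l, hH⟩ y hxy
    have hy' : y ∈ l := (List.mem_cons.1 hy).resolve_left hxy.ne'
    have hr' : r ∈ l := (List.mem_cons.1 hr).resolve_left har.ne'
    have hyr : y ≠ r := by simpa using hyC
    have h1 : ({y, r} : Finset V) ⊆ l.toFinset := by
      intro z hz
      simp only [Finset.mem_insert, Finset.mem_singleton] at hz
      rcases hz with rfl | rfl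
      · exact List.mem_toFinset.2 hy'
      · exact List.mem_toFinset.2 hr'
    have h2 := Finset.card_le_card h1
    rw [Finset.card_pair hyr] at h2
    exact h2.trans (List.toFinset_card_le l)
  obtain ⟨c, hc, hcs⟩ := exists_cycle G hnd hl2 hH har
  have hsup : ∀ w ∈ a :: l, w ∈ c.support := fun w hw => List.mem_of_mem_tail (hcs ▸ hw)
  obtain ⟨w0, hw0⟩ : ∃ w0, w0 ∉ a :: l := by
    by_contra hcon
    push Not at hcon
    refine hnh fun _ => ⟨r, c, ?_⟩
    rw [SimpleGraph.Walk.isHamiltonianCycle_iff_isCycle_and_support_count_tail_eq_one]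
    refine ⟨hc, fun w => ?_⟩
    rw [hcs]
    exact List.count_eq_one_of_mem hnd (hcon w)
  obtain ⟨X, S, ⟨b, hbX⟩, hX, hS, -, -, hind, hcnt⟩ :=
    key hs (a :: l).length (a :: l) r rfl (by rw [List.length_cons]; omega) hnd hH
  have hkS : k ≤ S.card := by
    by_contra hlt
    push Not at hlt
    obtain ⟨x, hx, y, hyC, hyX, hxy⟩ := hexit (X : Set V) _ (lt_of_le_of_lt hcnt hlt) b w0 hbX
      (by simp [hbX]) (fun h => hw0 (hmem _ (hX _ h)))
      (fun h => hw0 (List.mem_toFinset.1 (Finset.mem_filter.1 h).1))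
    exact hyC (Finset.mem_filter.2
      ⟨List.mem_toFinset.2 (hsat x (hX x hx) y hxy), hyX, x, hx, hxy⟩)
  obtain ⟨S', hS'S, hS'c⟩ := Finset.exists_subset_card_eq hkS
  refine ⟨S', hS'c, ?_, r, c, hc, fun s hs' => ?_⟩
  · intro x hx y hy hxy
    exact hind x (hS'S hx) y (hS'S hy) hxy
  · exact ⟨hsup s (hmem s (hS s (hS'S hs'))), fun w hw => hsup w (hsat s (hS s (hS'S hs')) w hw)⟩

end Pool.Agent.Lib.MP_05e181_co
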